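import Pool.Agent.E8helper39.WW.Stm

/-!
MP_a50277_co (Wiseman-Wilson), project WW of helper39, piece TUTTE: for a connected finite set of
vectors the deletion or the contraction of an element is connected.
-/

set_option autoImplicit false

open Module Submodule

namespace WW39

section
variable {V : Type} [AddCommGroup V] [Module ℝ V]

theorem tutte_sep {Q : Set V} {z : V} (hQ : Conn Q) (hz : z ∈ Q) {T : Set V}
    (hT : T ⊆ Q \ {z}) (h1 : z ∈ span ℝ ((Q \ {z}) \ T))
    (h2 : Disjoint (span ℝ T) (span ℝ ((Q \ {z}) \ T))) : T = ∅ := by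
  have hzT : z ∉ T := fun h => (hT h).2 rfl
  have e : Q \ T = insert z ((Q \ {z}) \ T) := by
    ext x
    simp only [Set.mem_diff, Set.mem_insert_iff, Set.mem_singleton_iff]
    constructor
    · rintro ⟨a, b⟩
      by_cases hx : x = z
      · exact Or.inl hx
      · exact Or.inr ⟨⟨a, hx⟩, b⟩
    · rintro (h | ⟨⟨a, _⟩, b⟩)
      · subst h; exact ⟨hz, hzT⟩
      · exact ⟨a, b⟩
  have e2 : span ℝ (Q \ T) = span ℝ ((Q \ {z}) \ T) := by
    rw [e]
    exact span_insert_eq_span h1
  rcases hQ T (hT.trans Set.diff_subset) (by rw [e2]; exact h2) with h | h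
  · exact h
  · exact absurd (h ▸ hz) hzT

theorem tutte_fd {Q : Set V} (hf : Q.Finite) {A : Set V} (hA : A ⊆ Q) :
    FiniteDimensional ℝ (span ℝ A) :=
  FiniteDimensional.span_of_finite ℝ (hf.subset hA)

theorem tutte_count {Q A C : Set V} (hf : Q.Finite) (hA : A ⊆ Q) (hC : C ⊆ Q)
    (h1 : Disjoint (span ℝ A) (span ℝ (Q \ A)))
    (h2 : finrank ℝ ↥(span ℝ C ⊓ span ℝ (Q \ C)) ≤ 1)
    (h3 : ¬ Disjoint (span ℝ (A ∩ C)) (span ℝ (Q \ (A ∩ C))))
    (h4 : ¬ Disjoint (span ℝ (Q \ (A ∪ C))) (span ℝ (A ∪ C))) : False := by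
  have fA := tutte_fd hf hA
  have fC := tutte_fd hf hC
  have fB := tutte_fd hf (A := Q \ A) Set.diff_subset
  have fD := tutte_fd hf (A := Q \ C) Set.diff_subset
  have fAC := tutte_fd hf (A := A ∩ C) (Set.inter_subset_left.trans hA)
  have fAC' := tutte_fd hf (A := Q \ (A ∩ C)) Set.diff_subset
  have fU := tutte_fd hf (A := A ∪ C) (Set.union_subset hA hC)
  have fU' := tutte_fd hf (A := Q \ (A ∪ C)) Set.diff_subset
  -- the sums
  have e1 : span ℝ A ⊔ span ℝ (Q \ A) = span ℝ Q := by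
    rw [← span_union, Set.union_diff_cancel hA]
  have e2 : span ℝ C ⊔ span ℝ (Q \ C) = span ℝ Q := by
    rw [← span_union, Set.union_diff_cancel hC]
  have e3 : span ℝ (A ∩ C) ⊔ span ℝ (Q \ (A ∩ C)) = span ℝ Q := by
    rw [← span_union, Set.union_diff_cancel (Set.inter_subset_left.trans hA)]
  have e4 : span ℝ (Q \ (A ∪ C)) ⊔ span ℝ (A ∪ C) = span ℝ Q := by
    rw [← span_union, Set.union_comm, Set.union_diff_cancel (Set.union_subset hA hC)]
  have e5 : span ℝ A ⊔ span ℝ C = span ℝ (A ∪ C) := (span_union A C).symm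
  have e6 : span ℝ (Q \ A) ⊔ span ℝ (Q \ C) = span ℝ (Q \ (A ∩ C)) := by
    rw [← span_union, Set.diff_inter]
  have i1 := finrank_sup_add_finrank_inf_eq (span ℝ A) (span ℝ (Q \ A))
  have i2 := finrank_sup_add_finrank_inf_eq (span ℝ C) (span ℝ (Q \ C))
  have i3 := finrank_sup_add_finrank_inf_eq (span ℝ (A ∩ C)) (span ℝ (Q \ (A ∩ C)))
  have i4 := finrank_sup_add_finrank_inf_eq (span ℝ (Q \ (A ∪ C))) (span ℝ (A ∪ C))
  have i5 := finrank_sup_add_finrank_inf_eq (span ℝ A) (span ℝ C)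
  have i6 := finrank_sup_add_finrank_inf_eq (span ℝ (Q \ A)) (span ℝ (Q \ C))
  rw [e1] at i1
  rw [e2] at i2
  rw [e3] at i3
  rw [e4] at i4
  rw [e5] at i5
  rw [e6] at i6
  have z1 : finrank ℝ ↥(span ℝ A ⊓ span ℝ (Q \ A)) = 0 := by
    rw [h1.eq_bot]; exact finrank_bot ℝ V
  have p3 : 1 ≤ finrank ℝ ↥(span ℝ (A ∩ C) ⊓ span ℝ (Q \ (A ∩ C))) := by
    rw [Submodule.one_le_finrank_iff]
    intro h
    exact h3 (disjoint_iff.2 h)
  have p4 : 1 ≤ finrank ℝ ↥(span ℝ (Q \ (A ∪ C)) ⊓ span ℝ (A ∪ C)) := by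
    rw [Submodule.one_le_finrank_iff]
    intro h
    exact h4 (disjoint_iff.2 h)
  have m5 : finrank ℝ ↥(span ℝ (A ∩ C)) ≤ finrank ℝ ↥(span ℝ A ⊓ span ℝ C) :=
    Submodule.finrank_mono (le_inf (span_mono Set.inter_subset_left)
      (span_mono Set.inter_subset_right))
  have m6 : finrank ℝ ↥(span ℝ (Q \ (A ∪ C))) ≤
      finrank ℝ ↥(span ℝ (Q \ A) ⊓ span ℝ (Q \ C)) :=
    Submodule.finrank_mono (le_inf (span_mono (Set.diff_subset_diff_right Set.subset_union_left))
      (span_mono (Set.diff_subset_diff_right Set.subset_union_right)))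
  omega

/-- one of the two corners is empty -/
theorem tutte_corner {Q : Set V} {z : V} (hf : Q.Finite) (hQ : Conn Q) (hz : z ∈ Q)
    {A C : Set V} (hA : A ⊆ Q \ {z}) (hC : C ⊆ Q \ {z})
    (h1 : Disjoint (span ℝ A) (span ℝ ((Q \ {z}) \ A)))
    (h2 : finrank ℝ ↥(span ℝ C ⊓ span ℝ ((Q \ {z}) \ C)) ≤ 1)
    (hzC : z ∈ span ℝ C) (hzD : z ∈ span ℝ ((Q \ {z}) \ C)) :
    A ∩ C = ∅ ∨ (Q \ {z}) \ (A ∪ C) = ∅ := by
  by_contra hcon
  rw [not_or] at hcon
  obtain ⟨n1, n2⟩ := hcon
  refine tutte_count (hf.subset Set.diff_subset) hA hC h1 h2 (fun h => n1 ?_) (fun h => n2 ?_)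
  · exact tutte_sep hQ hz (Set.inter_subset_left.trans hA)
      (span_mono (Set.diff_subset_diff_right Set.inter_subset_right) hzD) h
  · have e : (Q \ {z}) \ ((Q \ {z}) \ (A ∪ C)) = A ∪ C :=
      Set.diff_diff_cancel_left (Set.union_subset hA hC)
    refine tutte_sep hQ hz Set.diff_subset ?_ ?_
    · rw [e]
      exact span_mono Set.subset_union_right hzC
    · rw [e]
      exact h

end

theorem t_TUTTE : S_TUTTE := by
  intro V _ _ Q z hf hQ hz
  by_contra hcon
  rw [not_or] at hcon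
  obtain ⟨h1, h2⟩ := hcon
  unfold Conn at h1
  push Not at h1 h2
  obtain ⟨A, hA, hAd, hA0, hA1⟩ := h1
  obtain ⟨C, hC, hCd, hC0, hC1⟩ := h2
  have hA0' : A ≠ ∅ := by
    rwa [← Set.nonempty_iff_ne_empty]
  have hC0' : C ≠ ∅ := by
    rwa [← Set.nonempty_iff_ne_empty]
  set Q' : Set V := Q \ {z} with hQ'
  have hQ'0 : Q' ≠ ∅ := by
    intro h
    rw [h] at hA
    exact hA0' (Set.subset_empty_iff.1 hA)
  -- `z` is in the span of the others
  have hzC : z ∈ span ℝ C := by
    by_contra hzn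
    have hd : Disjoint (span ℝ C) (span ℝ (Q \ C)) := by
      have e : Q \ C = insert z (Q' \ C) := by
        ext x
        simp only [hQ', Set.mem_diff, Set.mem_insert_iff, Set.mem_singleton_iff]
        constructor
        · rintro ⟨a, b⟩
          by_cases hx : x = z
          · exact Or.inl hx
          · exact Or.inr ⟨⟨a, hx⟩, b⟩
        · rintro (h | ⟨⟨a, _⟩, b⟩)
          · subst h; exact ⟨hz, fun h => (hC h).2 rfl⟩
          · exact ⟨a, b⟩
      rw [e, disjoint_iff_inf_le]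
      intro x hx
      have hx1 : x ∈ span ℝ {z} :=
        hCd ⟨span_mono (Set.subset_insert _ _) hx.1, hx.2⟩
      obtain ⟨c, rfl⟩ := mem_span_singleton.1 hx1
      by_cases hc : c = 0
      · simp [hc]
      · exfalso
        apply hzn
        have := (span ℝ C).smul_mem c⁻¹ hx.1
        rwa [smul_smul, inv_mul_cancel₀ hc, one_smul] at this
    rcases hQ C (hC.trans Set.diff_subset) hd with h | h
    · exact hC0' h
    · exact (hC (h ▸ hz)).2 rfl
  have hzD : z ∈ span ℝ (Q' \ C) := by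
    by_contra hzn
    have hd : Disjoint (span ℝ (Q' \ C)) (span ℝ (Q \ (Q' \ C))) := by
      have e : Q \ (Q' \ C) = insert z C := by
        ext x
        simp only [hQ', Set.mem_diff, Set.mem_insert_iff, Set.mem_singleton_iff]
        constructor
        · rintro ⟨a, b⟩
          by_cases hx : x = z
          · exact Or.inl hx
          · right
            by_contra hxC
            exact b ⟨⟨a, hx⟩, hxC⟩
        · rintro (h | h)
          · subst h; exact ⟨hz, fun h => h.1.2 rfl⟩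
          · exact ⟨(hC h).1, fun h' => h'.2 h⟩
      rw [e, disjoint_iff_inf_le]
      intro x hx
      have hx1 : x ∈ span ℝ {z} :=
        hCd ⟨hx.2, span_mono (Set.subset_insert _ _) hx.1⟩
      obtain ⟨c, rfl⟩ := mem_span_singleton.1 hx1
      by_cases hc : c = 0
      · simp [hc]
      · exfalso
        apply hzn
        have := (span ℝ (Q' \ C)).smul_mem c⁻¹ hx.1
        rwa [smul_smul, inv_mul_cancel₀ hc, one_smul] at this
    rcases hQ (Q' \ C) (Set.diff_subset.trans Set.diff_subset) hd with h | h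
    · apply hC1
      exact Set.Subset.antisymm hC (Set.diff_eq_empty.1 h)
    · exact (h ▸ hz : z ∈ Q' \ C).1.2 rfl
  have hfr : finrank ℝ ↥(span ℝ C ⊓ span ℝ (Q' \ C)) ≤ 1 := by
    have hle : span ℝ C ⊓ span ℝ (Q' \ C) ≤ span ℝ {z} :=
      (inf_le_inf (span_mono (Set.subset_insert _ _)) (span_mono (Set.subset_insert _ _))).trans
        hCd
    have := Submodule.finrank_mono hle
    exact this.trans ((finrank_span_le_card ({z} : Set V)).trans (by simp))
  have hfr2 : finrank ℝ ↥(span ℝ (Q' \ C) ⊓ span ℝ (Q' \ (Q' \ C))) ≤ 1 := by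
    rw [Set.diff_diff_cancel_left hC, inf_comm]
    exact hfr
  have k1 := tutte_corner hf hQ hz hA hC hAd hfr hzC hzD
  have k2 := tutte_corner hf hQ hz hA (C := Q' \ C) Set.diff_subset hAd hfr2 hzD
    (by rw [Set.diff_diff_cancel_left hC]; exact hzC)
  rcases k1 with k1 | k1 <;> rcases k2 with k2 | k2
  · apply hA0'
    ext x
    simp only [Set.mem_empty_iff_false, iff_false]
    intro hx
    by_cases hxC : x ∈ C
    · have : x ∈ A ∩ C := ⟨hx, hxC⟩
      rw [k1] at this
      exact this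
    · have : x ∈ A ∩ (Q' \ C) := ⟨hx, hA hx, hxC⟩
      rw [k2] at this
      exact this
  · apply hC0'
    ext x
    simp only [Set.mem_empty_iff_false, iff_false]
    intro hx
    rcases (Set.diff_eq_empty.1 k2) (hC hx) with h | h
    · have : x ∈ A ∩ C := ⟨h, hx⟩
      rw [k1] at this
      exact this
    · exact h.2 hx
  · apply hC1
    refine Set.Subset.antisymm hC ?_
    intro x hx
    rcases (Set.diff_eq_empty.1 k1) hx with h | h
    · by_contra hxC
      have : x ∈ A ∩ (Q' \ C) := ⟨h, hx, hxC⟩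
      rw [k2] at this
      exact this
    · exact h
  · apply hA1
    refine Set.Subset.antisymm hA ?_
    intro x hx
    rcases (Set.diff_eq_empty.1 k1) hx with h | h
    · exact h
    · rcases (Set.diff_eq_empty.1 k2) hx with h' | h'
      · exact h'
      · exact absurd h h'.2

end WW39
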